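import Pool.Agent.Results.MP_3821a3_co.PositiveCharacteristic

/-!
# Sharpness of the bound by the rank times the edge density
-/

set_option autoImplicit false

namespace Pool.Agent.Y366.HP

open MvPolynomial
open Pool.Agent.Results.MP_3821a3_co.PositiveCharacteristic

universe u

/-- The hypergraph on `r` vertices with `m` copies of the full vertex set. -/
noncomputable def full (r m : ℕ) (hr : 2 ≤ r) : Hypergraph (Fin r) (Fin m) where
  edge _ := Finset.univ
  two_le _ := by
    rw [Finset.card_univ, Fintype.card_fin]
    exact hr

theorem full_density (r m : ℕ) (hr : 2 ≤ r) : (full r m hr).edgeDensity = (m : ℝ) / r := by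
  classical
  have hr0 : (0 : ℝ) < r := by
    have : 0 < r := by omega
    exact_mod_cast this
  have hX : ∀ X : Finset (Fin r), ((full r m hr).edgesIn X).card ≤ m := by
    intro X
    calc _ ≤ (Finset.univ : Finset (Fin m)).card := Finset.card_le_card (Finset.subset_univ _)
      _ = m := by simp
  apply le_antisymm
  · refine csSup_le ?_ ?_
    · exact ⟨_, Finset.univ, ⟨⟨0, by omega⟩, Finset.mem_univ _⟩, rfl⟩
    · rintro x ⟨X, hXne, rfl⟩
      by_cases hu : X = Finset.univ
      · subst hu
        rw [Finset.card_univ, Fintype.card_fin]
        apply div_le_div_of_nonneg_right _ hr0.le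
        exact_mod_cast hX _
      · have h0 : (full r m hr).edgesIn X = ∅ := by
          rw [Hypergraph.edgesIn, Finset.filter_eq_empty_iff]
          intro i _ hi
          exact hu (Finset.univ_subset_iff.1 hi)
        rw [h0]
        simp only [Finset.card_empty, Nat.cast_zero, zero_div]
        positivity
  · apply le_csSup
    · refine ⟨m, ?_⟩
      rintro x ⟨X, hXne, rfl⟩
      have h1 : (1 : ℝ) ≤ X.card := by
        have := Finset.card_pos.2 hXne
        exact_mod_cast this
      have h2 : (((full r m hr).edgesIn X).card : ℝ) ≤ m := by exact_mod_cast hX X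
      rw [div_le_iff₀ (by linarith)]
      have h3 : (0 : ℝ) ≤ m := by positivity
      nlinarith
    · refine ⟨Finset.univ, ⟨⟨0, by omega⟩, Finset.mem_univ _⟩, ?_⟩
      have h0 : (full r m hr).edgesIn Finset.univ = Finset.univ := by
        rw [Hypergraph.edgesIn, Finset.filter_eq_self]
        intro i _
        exact Finset.subset_univ _
      rw [h0, Finset.card_univ, Finset.card_univ, Fintype.card_fin, Fintype.card_fin]

/-- The Alon-Tarsi number of the `q`-th power of a linear form, `q` a power of the
characteristic. -/
theorem full_alonTarsi (F : Type u) [Field F] (p : ℕ) [Fact p.Prime] [CharP F p] (r k : ℕ)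
    (hr : 2 ≤ r) (c : Fin r → F) (hc : ∀ v, c v ≠ 0) :
    alonTarsi ((full r (p ^ k) hr).poly (fun _ v => c v)) = p ^ k + 1 := by
  classical
  set q := p ^ k with hq
  have hq0 : 0 < q := pow_pos (Fact.out : p.Prime).pos _
  set P := (full r q hr).poly (fun _ v => c v) with hP
  have hPeq : P = ∑ v : Fin r, C (c v ^ q) * X v ^ q := by
    rw [hP, Hypergraph.poly]
    have h1 : ∀ i : Fin q, (∑ v ∈ (full r q hr).edge i, (C (c v) * X v : MvPolynomial (Fin r) F)) =
        ∑ v : Fin r, C (c v) * X v := fun i => rfl
    rw [Finset.prod_congr rfl (fun i _ => h1 i), Finset.prod_const, Finset.card_univ,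
      Fintype.card_fin, hq, sum_pow_char_pow]
    refine Finset.sum_congr rfl fun v _ => ?_
    rw [mul_pow, C_pow]
  have hne : P ≠ 0 := by
    apply poly_ne_zero
    intro i v _
    exact hc v
  apply le_antisymm
  · apply Nat.sInf_le
    have v0 : Fin r := ⟨0, by omega⟩
    refine ⟨Finsupp.single v0 q, ?_, ?_⟩
    · have hcoeff : P.coeff (Finsupp.single v0 q) = c v0 ^ q := by
        rw [hPeq, coeff_sum, Finset.sum_eq_single v0]
        · rw [coeff_C_mul, coeff_X_pow, if_pos rfl, mul_one]
        · intro w _ hw
          rw [coeff_C_mul, coeff_X_pow, if_neg, mul_zero]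
          intro h
          rw [Finsupp.single_left_inj hq0.ne'] at h
          exact hw h
        · intro h
          exact absurd (Finset.mem_univ _) h
      have hsup : Finsupp.single v0 q ∈ P.support := by
        rw [mem_support_iff, hcoeff]
        exact pow_ne_zero _ (hc v0)
      have hhom : P.IsHomogeneous q := by
        rw [hPeq]
        apply IsHomogeneous.sum
        intro v _
        have h1 := (isHomogeneous_C (Fin r) (c v ^ q)).mul
          ((isHomogeneous_X F v).pow q)
        simpa using h1
      rw [topSupport, Finset.mem_filter]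
      refine ⟨hsup, ?_⟩
      rw [hhom.totalDegree hne, Finsupp.sum_single_index rfl]
    · congr 1
      apply le_antisymm
      · calc q = (Finsupp.single v0 q) v0 := by simp
          _ ≤ _ := Finset.le_sup (f := fun v => (Finsupp.single v0 q) v) (Finset.mem_univ v0)
      · apply Finset.sup_le
        intro v _
        rw [Finsupp.single_apply]
        split_ifs
        · exact le_rfl
        · exact Nat.zero_le _
  · apply le_alonTarsi P hne q
    rw [hPeq]
    exact Ideal.sum_mem _ (fun v _ => Ideal.mul_mem_left _ _ (X_pow_mem _ _))

end Pool.Agent.Y366.HP
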