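import Pool.Agent.Y366.HP.Sharp

/-!
# Uniform hypergraphs without repeated edges
-/

set_option autoImplicit false

namespace Pool.Agent.Y366.HP

open MvPolynomial
open Pool.Agent.Results.MP_3821a3_co.PositiveCharacteristic

universe u

/-- `a` blocks of `M` vertices and `b` single vertices; every union of a block and a single vertex
is an edge. -/
noncomputable def bip (a b M : ℕ) (hM : 1 ≤ M) :
    Hypergraph ((Fin a × Fin M) ⊕ Fin b) (Fin a × Fin b) where
  edge e := (({e.1} : Finset (Fin a)) ×ˢ (Finset.univ : Finset (Fin M))).disjSum {e.2}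
  two_le e := by
    rw [Finset.card_disjSum, Finset.card_product, Finset.card_singleton, Finset.card_singleton,
      Finset.card_univ, Fintype.card_fin]
    omega

theorem bip_card (a b M : ℕ) (hM : 1 ≤ M) (e : Fin a × Fin b) :
    ((bip a b M hM).edge e).card = M + 1 := by
  simp only [bip]
  rw [Finset.card_disjSum, Finset.card_product, Finset.card_singleton, Finset.card_singleton,
    Finset.card_univ, Fintype.card_fin, one_mul]

theorem bip_injective (a b M : ℕ) (hM : 1 ≤ M) : Function.Injective (bip a b M hM).edge := by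
  rintro ⟨i, j⟩ ⟨i', j'⟩ h
  simp only [bip] at h
  have h1 := (Finset.ext_iff.1 h (Sum.inl (i, ⟨0, by omega⟩))).1 (by simp)
  have h2 := (Finset.ext_iff.1 h (Sum.inr j)).1 (by simp)
  simp only [Finset.inl_mem_disjSum, Finset.mem_product, Finset.mem_singleton, Finset.mem_univ,
    and_true] at h1
  simp only [Finset.inr_mem_disjSum, Finset.mem_singleton] at h2
  rw [h1, h2]

theorem bip_density (a b M : ℕ) (hM : 1 ≤ M) (hb : 1 ≤ b) :
    (bip a b M hM).edgeDensity ≤ (b : ℝ) / M := by
  classical
  have hM0 : (0 : ℝ) < M := by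
    have : 0 < M := by omega
    exact_mod_cast this
  refine csSup_le ?_ ?_
  · exact ⟨_, {Sum.inr ⟨0, by omega⟩}, ⟨_, Finset.mem_singleton_self _⟩, rfl⟩
  · rintro x ⟨X, hX, rfl⟩
    have hXpos : (0 : ℝ) < X.card := by exact_mod_cast Finset.card_pos.2 hX
    -- the blocks contained in `X`
    set J : Finset (Fin a) := Finset.univ.filter (fun i => ∀ s : Fin M, Sum.inl (i, s) ∈ X) with hJ
    have h1 : ((bip a b M hM).edgesIn X).card ≤ J.card * b := by
      have hsub : (bip a b M hM).edgesIn X ⊆ J ×ˢ (Finset.univ : Finset (Fin b)) := by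
        rintro ⟨i, j⟩ he
        rw [Hypergraph.edgesIn, Finset.mem_filter] at he
        rw [Finset.mem_product]
        refine ⟨?_, Finset.mem_univ _⟩
        rw [hJ, Finset.mem_filter]
        refine ⟨Finset.mem_univ _, fun s => he.2 ?_⟩
        simp [bip]
      calc _ ≤ (J ×ˢ (Finset.univ : Finset (Fin b))).card := Finset.card_le_card hsub
        _ = J.card * b := by rw [Finset.card_product, Finset.card_univ, Fintype.card_fin]
    have h2 : J.card * M ≤ X.card := by
      have hsub : (J ×ˢ (Finset.univ : Finset (Fin M))).image Sum.inl ⊆ X := by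
        intro v hv
        rw [Finset.mem_image] at hv
        obtain ⟨⟨i, s⟩, his, rfl⟩ := hv
        rw [Finset.mem_product, hJ, Finset.mem_filter] at his
        exact his.1.2 s
      calc J.card * M = ((J ×ˢ (Finset.univ : Finset (Fin M))).image
            (Sum.inl : _ → (Fin a × Fin M) ⊕ Fin b)).card := by
            rw [Finset.card_image_of_injective _ Sum.inl_injective, Finset.card_product,
              Finset.card_univ, Fintype.card_fin]
        _ ≤ X.card := Finset.card_le_card hsub
    rw [div_le_div_iff₀ hXpos hM0]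
    have h1' : (((bip a b M hM).edgesIn X).card : ℝ) ≤ J.card * b := by exact_mod_cast h1
    have h2' : (J.card : ℝ) * M ≤ X.card := by exact_mod_cast h2
    have hb0 : (0 : ℝ) ≤ b := by positivity
    calc _ ≤ ((J.card : ℝ) * b) * M := mul_le_mul_of_nonneg_right h1' hM0.le
      _ = b * ((J.card : ℝ) * M) := by ring
      _ ≤ b * X.card := mul_le_mul_of_nonneg_left h2' hb0

theorem lin_pow_mem {V : Type} (F : Type u) [Field F] (p : ℕ) [Fact p.Prime] [CharP F p] (k M : ℕ)
    (c : Fin M → F) (f : Fin M → V) :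
    (∑ s : Fin M, (C (c s) * X (f s) : MvPolynomial V F)) ^ p ^ k ∈ powIdeal V F (p ^ k) := by
  rw [sum_pow_char_pow]
  refine Ideal.sum_mem _ (fun s _ => ?_)
  rw [mul_pow]
  exact Ideal.mul_mem_left _ _ (X_pow_mem _ _)

/-- The polynomial lies in the ideal of the `q`-th powers. -/
theorem bip_alonTarsi (F : Type u) [Field F] (p : ℕ) [Fact p.Prime] [CharP F p] (k M : ℕ)
    (hM : 1 ≤ M) (c : Fin M → F) (hc : ∀ v, c v ≠ 0) :
    p ^ k + 1 ≤ alonTarsi ((bip ((p ^ k) ^ 2) (p ^ k) M hM).poly
      (fun _ v => Sum.elim (fun x => c x.2) (fun _ => (1 : F)) v)) := by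
  classical
  set q := p ^ k with hq
  have hq0 : 0 < q := pow_pos (Fact.out : p.Prime).pos _
  apply le_alonTarsi
  · apply poly_ne_zero
    rintro ⟨i, j⟩ v _
    rcases v with v | v
    · exact hc v.2
    · exact one_ne_zero
  · let y : Fin (q ^ 2) ⊕ Fin q → MvPolynomial ((Fin (q ^ 2) × Fin M) ⊕ Fin q) F :=
      Sum.elim (fun i => ∑ s : Fin M, C (c s) * X (Sum.inl (i, s))) (fun j => X (Sum.inr j))
    have h3 : (bip (q ^ 2) q M hM).poly
        (fun _ v => Sum.elim (fun x => c x.2) (fun _ => (1 : F)) v) =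
        ∏ e : Fin (q ^ 2) × Fin q, ∑ b ∈ ({Sum.inl e.1, Sum.inr e.2} : Finset _), y b := by
      rw [Hypergraph.poly]
      refine Finset.prod_congr rfl (fun e _ => ?_)
      rw [Finset.sum_pair (by simp)]
      simp only [bip, y, Sum.elim_inl, Sum.elim_inr]
      rw [Finset.sum_disjSum, Finset.sum_product, Finset.sum_singleton, Finset.sum_singleton]
      simp
    rw [h3]
    refine prod_sum_mem _ y q ?_ _ ?_
    · rintro (i | j)
      · simp only [y, Sum.elim_inl]
        exact lin_pow_mem F p k M c _
      · simp only [y, Sum.elim_inr]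
        exact X_pow_mem _ _
    · rw [Fintype.card_sum, Fintype.card_prod, Fintype.card_fin, Fintype.card_fin]
      obtain ⟨t, ht⟩ : ∃ t, q = t + 1 := ⟨q - 1, by omega⟩
      rw [ht, Nat.add_sub_cancel]
      ring_nf
      nlinarith [pow_pos (show 0 < t + 1 by omega) 2]

end Pool.Agent.Y366.HP
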